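import Mathlib

namespace Pool.Agent.H.MP_2cf482_co

open Finset

variable {V : Type} [Fintype V] [DecidableEq V]

/-- A dominates the vertex v. -/
def Dom (G : SimpleGraph V) (A : Finset V) (v : V) : Prop := v ∈ A ∨ ∃ a ∈ A, G.Adj a v

/-- Domination number. -/
noncomputable def gam (G : SimpleGraph V) : ℕ := sInf {m | ∃ A : Finset V, (∀ v, Dom G A v) ∧ A.card = m}

/-- A precisely dominates G - y. -/
def Prec (G : SimpleGraph V) (A : Finset V) (y : V) : Prop :=
  (∀ v, v ≠ y → Dom G A v) ∧ ¬ Dom G A y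

/-- k-conservative graphs. -/
def Conservative (k : ℕ) (G : SimpleGraph V) : Prop :=
  gam G = k - 1 ∧ ∀ x y, x ≠ y → ¬ G.Adj x y →
    ∃ S : Finset V, S.card = k - 2 ∧ (Prec G (insert x S) y ∨ Prec G (insert y S) x)

def g (l : ℕ) : ℕ := if l ≤ 1 then 0 else if l ≤ 5 then 1 else l / 3

lemma upper (k : ℕ) (hk : 4 ≤ k) (G : SimpleGraph V) (hc : G.Connected)
    (h : Conservative k G) (u v : V) : G.dist u v ≤ 3 * k - 6 := by
  by_contra hd
  push Not at hd
  obtain ⟨p, hp⟩ := hc.exists_walk_length_eq_dist u v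
  have hx : ∀ i, i ≤ 3 * k - 5 → G.dist u (p.getVert i) = i := by
    intro i hi
    have h1 := G.dist_le (p.take i)
    have h2 := G.dist_le (p.drop i)
    rw [SimpleGraph.Walk.take_length] at h1
    rw [SimpleGraph.Walk.drop_length] at h2
    have h3 := hc.dist_triangle (u := u) (v := p.getVert i) (w := v)
    omega
  have hadj : ∀ a b, G.Adj a b → G.dist u b ≤ G.dist u a + 1 := by
    intro a b hab
    have h3 := hc.dist_triangle (u := u) (v := a) (w := b)
    rwa [SimpleGraph.dist_eq_one_iff_adj.mpr hab] at h3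
  have hdom : ∀ (S : Finset V) (j j' i : ℕ), j ≤ 5 → j' ≤ 5 → i ≤ 3 * k - 5 → i ≠ j' →
      (i + 1 < j ∨ j + 1 < i) → Prec G (insert (p.getVert j) S) (p.getVert j') →
      ∃ a ∈ S, G.dist u a ≤ i + 1 ∧ i ≤ G.dist u a + 1 := by
    intro S j j' i hj hj' hi hne hfar hP
    have e1 := hx i hi
    have e2 := hx j (by omega)
    have e3 := hx j' (by omega)
    have : ∃ a ∈ insert (p.getVert j) S, G.dist u a ≤ i + 1 ∧ i ≤ G.dist u a + 1 := by
      rcases hP.1 (p.getVert i) (fun e => hne (by rw [e] at e1; omega)) with h1 | ⟨a, ha, h1⟩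
      · exact ⟨_, h1, by omega, by omega⟩
      · have := hadj _ _ h1
        have := hadj _ _ h1.symm
        exact ⟨a, ha, by omega, by omega⟩
    obtain ⟨a, ha, h1, h2⟩ := this
    rcases mem_insert.mp ha with rfl | ha
    · omega
    · exact ⟨a, ha, h1, h2⟩
  have e2 := hx 2 (by omega)
  have e5 := hx 5 (by omega)
  obtain ⟨S, hS, hP⟩ := h.2 (p.getVert 2) (p.getVert 5) (fun e => by rw [e] at e2; omega)
    (fun e => by have := hadj _ _ e; omega)
  have hsub : range (k - 1) ⊆ S.image (fun a => g (G.dist u a)) := by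
    intro t ht
    have ht := mem_range.mp ht
    have key : ∀ i, (∀ l, l ≤ i + 1 → i ≤ l + 1 → g l = t) →
        (∃ a ∈ S, G.dist u a ≤ i + 1 ∧ i ≤ G.dist u a + 1) →
        t ∈ S.image (fun a => g (G.dist u a)) := by
      rintro i hi ⟨a, ha, h1, h2⟩
      exact mem_image.mpr ⟨a, ha, hi _ h1 h2⟩
    by_cases t0 : t = 0
    · refine key 0 (fun l h1 h2 => by unfold g; split_ifs <;> omega) ?_
      rcases hP with hP | hP
      · exact hdom S 2 5 0 (by omega) (by omega) (by omega) (by omega) (by omega) hP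
      · exact hdom S 5 2 0 (by omega) (by omega) (by omega) (by omega) (by omega) hP
    by_cases t1 : t = 1
    · rcases hP with hP | hP
      · exact key 4 (fun l h1 h2 => by unfold g; split_ifs <;> omega)
          (hdom S 2 5 4 (by omega) (by omega) (by omega) (by omega) (by omega) hP)
      · exact key 3 (fun l h1 h2 => by unfold g; split_ifs <;> omega)
          (hdom S 5 2 3 (by omega) (by omega) (by omega) (by omega) (by omega) hP)
    · refine key (3 * t + 1) (fun l h1 h2 => by unfold g; split_ifs <;> omega) ?_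
      rcases hP with hP | hP
      · exact hdom S 2 5 _ (by omega) (by omega) (by omega) (by omega) (by omega) hP
      · exact hdom S 5 2 _ (by omega) (by omega) (by omega) (by omega) (by omega) hP
  have h1 := card_le_card hsub
  have h2 : (S.image (fun a => g (G.dist u a))).card ≤ S.card := card_image_le
  rw [card_range] at h1
  omega

lemma endv (k : ℕ) (hk : 5 ≤ k) (G : SimpleGraph V) (hc : G.Connected)
    (h : Conservative k G) (u v : V) (hd : G.dist u v = 3 * k - 6) :
    ∃ w, G.Adj w v ∧ ∀ s, G.Adj v s → s = w ∨ G.Adj w s := by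
  obtain ⟨p, hp⟩ := hc.exists_walk_length_eq_dist u v
  have hx : ∀ i, i ≤ 3 * k - 6 → G.dist u (p.getVert i) = i := by
    intro i hi
    have h1 := G.dist_le (p.take i)
    have h2 := G.dist_le (p.drop i)
    rw [SimpleGraph.Walk.take_length] at h1
    rw [SimpleGraph.Walk.drop_length] at h2
    have h3 := hc.dist_triangle (u := u) (v := p.getVert i) (w := v)
    omega
  have hadj : ∀ a b, G.Adj a b → G.dist u b ≤ G.dist u a + 1 := by
    intro a b hab
    have h3 := hc.dist_triangle (u := u) (v := a) (w := b)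
    rwa [SimpleGraph.dist_eq_one_iff_adj.mpr hab] at h3
  have e2 := hx 2 (by omega)
  have e5 := hx 5 (by omega)
  obtain ⟨S, hS, hP⟩ := h.2 (p.getVert 2) (p.getVert 5) (fun e => by rw [e] at e2; omega)
    (fun e => by have := hadj _ _ e; omega)
  have hdom : ∀ x y z : V, Prec G (insert x S) y → G.dist u z ≠ G.dist u y →
      (G.dist u z + 1 < G.dist u x ∨ G.dist u x + 1 < G.dist u z) →
      ∃ a ∈ S, (a = z ∨ G.Adj a z) ∧ G.dist u a ≤ G.dist u z + 1 ∧ G.dist u z ≤ G.dist u a + 1 := by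
    intro x y z hP hne hfar
    have : ∃ a ∈ insert x S, (a = z ∨ G.Adj a z) ∧ G.dist u a ≤ G.dist u z + 1 ∧
        G.dist u z ≤ G.dist u a + 1 := by
      rcases hP.1 z (fun e => hne (by rw [e])) with h1 | ⟨a, ha, h1⟩
      · exact ⟨_, h1, Or.inl rfl, by omega, by omega⟩
      · exact ⟨a, ha, Or.inr h1, hadj _ _ h1.symm, hadj _ _ h1⟩
    obtain ⟨a, ha, h0, h1, h2⟩ := this
    rcases mem_insert.mp ha with rfl | ha
    · omega
    · exact ⟨a, ha, h0, h1, h2⟩
  have far : ∀ z : V, (G.dist u z = 0 ∨ 7 ≤ G.dist u z) →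
      ∃ a ∈ S, (a = z ∨ G.Adj a z) ∧ G.dist u a ≤ G.dist u z + 1 ∧ G.dist u z ≤ G.dist u a + 1 := by
    intro z hz
    rcases hP with hP | hP
    · exact hdom _ _ z hP (by omega) (by omega)
    · exact hdom _ _ z hP (by omega) (by omega)
  have hsub : range (k - 3) ⊆ (S.filter (fun a => ¬ 3 * k - 9 ≤ G.dist u a)).image
      (fun a => g (G.dist u a)) := by
    intro t ht
    have ht := mem_range.mp ht
    have key : ∀ i, i + 1 < 3 * k - 9 → (∀ l, l ≤ i + 1 → i ≤ l + 1 → g l = t) →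
        (∃ a ∈ S, (a = p.getVert i ∨ G.Adj a (p.getVert i)) ∧
          G.dist u a ≤ G.dist u (p.getVert i) + 1 ∧ G.dist u (p.getVert i) ≤ G.dist u a + 1) →
        t ∈ (S.filter (fun a => ¬ 3 * k - 9 ≤ G.dist u a)).image (fun a => g (G.dist u a)) := by
      rintro i hi0 hi ⟨a, ha, -, h1, h2⟩
      rw [hx i (by omega)] at h1 h2
      exact mem_image.mpr ⟨a, mem_filter.mpr ⟨ha, by omega⟩, hi _ h1 h2⟩
    by_cases t0 : t = 0
    · exact key 0 (by omega) (fun l h1 h2 => by unfold g; split_ifs <;> omega)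
        (far _ (Or.inl (hx 0 (by omega))))
    by_cases t1 : t = 1
    · have e3 := hx 3 (by omega)
      have e4 := hx 4 (by omega)
      rcases hP with hP | hP
      · exact key 4 (by omega) (fun l h1 h2 => by unfold g; split_ifs <;> omega)
          (hdom _ _ _ hP (by omega) (by omega))
      · exact key 3 (by omega) (fun l h1 h2 => by unfold g; split_ifs <;> omega)
          (hdom _ _ _ hP (by omega) (by omega))
    · exact key (3 * t + 1) (by omega) (fun l h1 h2 => by unfold g; split_ifs <;> omega)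
        (far _ (Or.inr (by rw [hx _ (by omega)]; omega)))
  have h1 := (card_le_card hsub).trans card_image_le
  rw [card_range] at h1
  have h2 := card_filter_add_card_filter_not (s := S) (fun a => 3 * k - 9 ≤ G.dist u a)
  have h3 := card_le_one.mp (show (S.filter (fun a => 3 * k - 9 ≤ G.dist u a)).card ≤ 1 by omega)
  have e8 := hx (3 * k - 8) (by omega)
  obtain ⟨w, hw, -, w1, w2⟩ := far (p.getVert (3 * k - 8)) (Or.inr (by omega))
  have uq : ∀ a ∈ S, 3 * k - 9 ≤ G.dist u a → a = w := fun a ha h' =>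
    h3 a (mem_filter.mpr ⟨ha, h'⟩) w (mem_filter.mpr ⟨hw, by omega⟩)
  refine ⟨w, ?_, fun s hs => ?_⟩
  · obtain ⟨a, ha, a0, a1, a2⟩ := far v (Or.inr (by omega))
    have := uq a ha (by omega)
    subst this
    rcases a0 with rfl | a0
    · omega
    · exact a0
  · have := hadj _ _ hs.symm
    obtain ⟨a, ha, a0, a1, a2⟩ := far s (Or.inr (by omega))
    have := uq a ha (by omega)
    subst this
    exact a0.imp Eq.symm id

lemma upper5 (k : ℕ) (hk : 5 ≤ k) (G : SimpleGraph V) (hc : G.Connected)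
    (h : Conservative k G) (u v : V) : G.dist u v ≤ 3 * k - 7 := by
  by_contra hd
  have hd' : G.dist u v = 3 * k - 6 := by have := upper k (by omega) G hc h u v; omega
  obtain ⟨w, w1, w2⟩ := endv k hk G hc h u v hd'
  obtain ⟨z, z1, z2⟩ := endv k hk G hc h v u (by rw [SimpleGraph.dist_comm]; exact hd')
  have t1 := hc.dist_triangle (u := u) (v := z) (w := v)
  have t2 := hc.dist_triangle (u := z) (v := w) (w := v)
  rw [SimpleGraph.dist_eq_one_iff_adj.mpr z1.symm] at t1
  rw [SimpleGraph.dist_eq_one_iff_adj.mpr w1] at t2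
  have key : ∀ (A : Finset V) (w v : V), G.Adj w v → (∀ s, G.Adj v s → s = w ∨ G.Adj w s) →
      ¬ Prec G A w := by
    intro A w v h1 h2 hP
    rcases hP.1 v h1.ne' with h3 | ⟨a, ha, h3⟩
    · exact hP.2 (Or.inr ⟨v, h3, h1.symm⟩)
    · rcases h2 a h3.symm with rfl | h4
      · exact hP.2 (Or.inl ha)
      · exact hP.2 (Or.inr ⟨a, ha, h4.symm⟩)
  obtain ⟨S, -, hP | hP⟩ := h.2 z w
    (fun e => by rw [e, SimpleGraph.dist_self] at t2; rw [e] at t1; omega)
    (fun e => by rw [SimpleGraph.dist_eq_one_iff_adj.mpr e] at t2; omega)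
  · exact key _ w v w1 w2 hP
  · exact key _ z u z1 z2 hP

def ed : List (ℕ × ℕ) := [(0, 1), (1, 2), (2, 3), (3, 4), (4, 5), (4, 6), (5, 7), (6, 7)]

def H : SimpleGraph (Fin 8) where
  Adj a b := ((a : ℕ), (b : ℕ)) ∈ ed ∨ ((b : ℕ), (a : ℕ)) ∈ ed
  symm := ⟨fun _ _ h => h.symm⟩
  loopless := ⟨by decide⟩

instance : DecidableRel H.Adj := fun a b =>
  inferInstanceAs (Decidable (((a : ℕ), (b : ℕ)) ∈ ed ∨ ((b : ℕ), (a : ℕ)) ∈ ed))

instance (A : Finset (Fin 8)) (v : Fin 8) : Decidable (Dom H A v) :=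
  inferInstanceAs (Decidable (v ∈ A ∨ ∃ a ∈ A, H.Adj a v))

instance (A : Finset (Fin 8)) (y : Fin 8) : Decidable (Prec H A y) :=
  inferInstanceAs (Decidable ((∀ v, v ≠ y → Dom H A v) ∧ ¬ Dom H A y))

lemma H_cons : Conservative 4 H := by
  constructor
  · have h1 : ∀ A : Finset (Fin 8), (∀ v, Dom H A v) → 3 ≤ A.card := by decide +kernel
    have h2 : 3 ∈ {m | ∃ A : Finset (Fin 8), (∀ v, Dom H A v) ∧ A.card = m} :=
      ⟨{1, 4, 7}, by decide +kernel, by decide +kernel⟩
    refine le_antisymm (Nat.sInf_le h2) ?_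
    obtain ⟨A, hA, hc⟩ := Nat.sInf_mem ⟨3, h2⟩
    unfold gam
    rw [← hc]
    exact h1 A hA
  · have h : ∀ x y : Fin 8, x ≠ y → ¬ H.Adj x y → ∃ a b : Fin 8, a ≠ b ∧
        (Prec H (insert x {a, b}) y ∨ Prec H (insert y {a, b}) x) := by decide +kernel
    intro x y h1 h2
    obtain ⟨a, b, hab, h3⟩ := h x y h1 h2
    exact ⟨{a, b}, card_pair hab, h3⟩

def lv : Fin 8 → ℕ := ![0, 1, 2, 3, 4, 5, 5, 6]

lemma H_walk {a b : Fin 8} (p : H.Walk a b) : lv b ≤ lv a + p.length := by
  induction p with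
  | nil => simp
  | @cons x y z h p ih =>
    have h1 : ∀ x y : Fin 8, H.Adj x y → lv y ≤ lv x + 1 := by decide +kernel
    have := h1 x y h
    rw [SimpleGraph.Walk.length_cons]
    omega

lemma H_conn : H.Connected := by
  rw [SimpleGraph.connected_iff_exists_forall_reachable]
  exact ⟨0, by decide +kernel⟩

theorem both :
    (∀ (V : Type) [Fintype V] [DecidableEq V] (G : SimpleGraph V), G.Connected →
      (Conservative 4 G → ∀ u v, G.dist u v ≤ 6) ∧
      ∀ k, 5 ≤ k → Conservative k G → ∀ u v, G.dist u v ≤ 3 * k - 7) ∧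
    (∃ G : SimpleGraph (Fin 8), G.Connected ∧ Conservative 4 G ∧ ∃ u v, G.dist u v = 6) := by
  refine ⟨fun V _ _ G hc => ⟨fun h u v => upper 4 le_rfl G hc h u v,
    fun k hk h u v => upper5 k hk G hc h u v⟩, H, H_conn, H_cons, 0, 7,
    le_antisymm (upper 4 le_rfl H H_conn H_cons 0 7) ?_⟩
  obtain ⟨p, hp⟩ := H_conn.exists_walk_length_eq_dist 0 7
  have := H_walk p
  rw [hp] at this
  simpa [lv] using this

end Pool.Agent.H.MP_2cf482_co
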